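import Mathlib

/-!
# Hofstadter's recurrence: tails whose upward steps are at most one do not exist
-/

namespace Pool.Agent.Helper95.HQ

/-- From `M` on the recurrence holds. -/
structure Sol (f : ℕ → ℕ) (M : ℕ) : Prop where
  pos : ∀ n, 1 ≤ n → 1 ≤ f n
  le : ∀ m, M ≤ m → f m ≤ m
  rec' : ∀ m, M ≤ m → f (m + 2) = f (m + 2 - f (m + 1)) + f (m + 2 - f m)

/-- The tail hypotheses: from `M` on the recurrence holds and every step is at most `1`. -/
structure Tail (f : ℕ → ℕ) (M : ℕ) : Prop extends Sol f M where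
  up : ∀ m, M ≤ m → f (m + 1) ≤ f m + 1

variable {f : ℕ → ℕ} {M : ℕ}

theorem C1 (h : Sol f M) {m : ℕ} (hm : M ≤ m) (h1 : f (m + 1) = f m + 1)
    (h2 : f (m + 2) = f m + 2) : f (m + 3) = f m + 2 := by
  have e1 := h.rec' m hm
  have e2 := h.rec' (m + 1) (by omega)
  rw [show m + 1 + 2 = m + 3 by omega, show m + 1 + 1 = m + 2 by omega] at e2
  rw [show m + 3 - f (m + 2) = m + 2 - f (m + 1) by omega,
    show m + 3 - f (m + 1) = m + 2 - f m by omega] at e2
  omega

theorem C2 (h : Tail f M) {m : ℕ} (hm : M ≤ m) (h1 : f (m + 1) = f m)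
    (h2 : f (m + 2) = f m) : f (m + 3) ≤ f m := by
  have e1 := h.rec' m hm
  have e2 := h.rec' (m + 1) (by omega)
  have e3 := h.up (m + 2) (by omega)
  rw [show m + 1 + 2 = m + 3 by omega, show m + 1 + 1 = m + 2 by omega] at e2
  rw [show m + 2 + 1 = m + 3 by omega] at e3
  rw [h1] at e1
  rw [h1, h2] at e2
  omega

theorem C3 (h : Tail f M) {m : ℕ} (hm : M ≤ m) (h1 : f (m + 1) = f m + 1)
    (h2 : f (m + 2) = f m + 1) (h3 : f (m + 3) = f m + 2) (h4 : f (m + 4) = f m + 2) :
    f (m + 5) = f m + 2 := by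
  have e1 := h.rec' (m + 1) (by omega)
  have e2 := h.rec' (m + 2) (by omega)
  have e3 := h.rec' (m + 3) (by omega)
  rw [show m + 1 + 2 = m + 3 by omega, show m + 1 + 1 = m + 2 by omega,
    show m + 3 - f (m + 2) = m + 2 - f m by omega,
    show m + 3 - f (m + 1) = m + 2 - f m by omega] at e1
  rw [show m + 2 + 2 = m + 4 by omega, show m + 2 + 1 = m + 3 by omega,
    show m + 4 - f (m + 3) = m + 2 - f m by omega,
    show m + 4 - f (m + 2) = m + 3 - f m by omega] at e2
  rw [show m + 3 + 2 = m + 5 by omega, show m + 3 + 1 = m + 4 by omega,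
    show m + 5 - f (m + 4) = m + 3 - f m by omega,
    show m + 5 - f (m + 3) = m + 3 - f m by omega] at e3
  omega

theorem C4 (h : Tail f M) {m : ℕ} (hm : M ≤ m) (hlow : M + f m ≤ m + 1)
    (h1 : f (m + 1) = f m + 1)
    (h2 : f (m + 2) = f m + 1) (h3 : f (m + 3) = f m + 2) (h4 : f (m + 4) = f m + 3) :
    f (m + 5) = f m + 3 ∧ f (m + 6) = f m + 4 ∧ f (m + 7) = f m + 4 ∧ f (m + 8) = f m + 4 := by
  have h5 : f (m + 5) = f m + 3 := by
    have := C1 h.toSol (m := m + 2) (by omega)
      (by rw [show m + 2 + 1 = m + 3 by omega]; omega)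
      (by rw [show m + 2 + 2 = m + 4 by omega]; omega)
    rw [show m + 2 + 3 = m + 5 by omega] at this
    omega
  obtain ⟨y, hy0⟩ : ∃ y, m + 1 = y + f m := ⟨m + 1 - f m, by omega⟩
  have hyM : M ≤ y := by omega
  have e0 := h.rec' m (by omega)
  rw [show m + 2 - f (m + 1) = y by omega, show m + 2 - f m = y + 1 by omega] at e0
  have e1 := h.rec' (m + 1) (by omega)
  rw [show m + 1 + 2 = m + 3 by omega, show m + 1 + 1 = m + 2 by omega,
    show m + 3 - f (m + 2) = y + 1 by omega,
    show m + 3 - f (m + 1) = y + 1 by omega] at e1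
  have e2 := h.rec' (m + 2) (by omega)
  rw [show m + 2 + 2 = m + 4 by omega, show m + 2 + 1 = m + 3 by omega,
    show m + 4 - f (m + 3) = y + 1 by omega,
    show m + 4 - f (m + 2) = y + 2 by omega] at e2
  have e4 := h.rec' (m + 4) (by omega)
  rw [show m + 4 + 2 = m + 6 by omega, show m + 4 + 1 = m + 5 by omega,
    show m + 6 - f (m + 5) = y + 2 by omega,
    show m + 6 - f (m + 4) = y + 2 by omega] at e4
  have h6 : f (m + 6) = f m + 4 := by omega
  have a1 : f (y + 1) = f y + 1 := by omega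
  have a2 : f (y + 2) = f y + 2 := by omega
  have a3 : f (y + 3) = f y + 2 := C1 h.toSol hyM a1 a2
  have e5 := h.rec' (m + 5) (by omega)
  rw [show m + 5 + 2 = m + 7 by omega, show m + 5 + 1 = m + 6 by omega,
    show m + 7 - f (m + 6) = y + 2 by omega,
    show m + 7 - f (m + 5) = y + 3 by omega, a3] at e5
  have h7 : f (m + 7) = f m + 4 := by clear e0 e1; omega
  have e6 := h.rec' (m + 6) (by omega)
  rw [show m + 6 + 2 = m + 8 by omega, show m + 6 + 1 = m + 7 by omega,
    show m + 8 - f (m + 7) = y + 3 by omega,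
    show m + 8 - f (m + 6) = y + 3 by omega, a3] at e6
  have h8 : f (m + 8) = f m + 4 := by clear e0 e1 e5; omega
  exact ⟨h5, h6, h7, h8⟩

/-- The arguments of the recurrence tend to infinity. -/
theorem low (h : Tail f M) : ∀ k m, M + 3 * k ≤ m → f m + k ≤ m := by
  intro k
  induction k with
  | zero => intro m hm; have := h.le m (by omega); omega
  | succ k ih =>
    intro m hm
    obtain ⟨p, rfl⟩ : ∃ p, m = p + 3 := ⟨m - 3, by omega⟩
    have hp := ih p (by omega)
    have u1 := h.up p (by omega)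
    have u2 := h.up (p + 1) (by omega)
    have u3 := h.up (p + 2) (by omega)
    rw [show p + 1 + 1 = p + 2 by omega] at u2
    rw [show p + 2 + 1 = p + 3 by omega] at u3
    by_cases h1 : f (p + 1) = f p + 1
    · by_cases h2 : f (p + 2) = f p + 2
      · have := C1 h.toSol (by omega) h1 h2
        omega
      · omega
    · omega

/-- The block lemma. -/
theorem block (h : Tail f M) {m : ℕ} (hm : M ≤ m) (hl : ∀ n, m ≤ n → f n + M ≤ n) :
    ∃ l, 1 ≤ l ∧ l ≤ 11 ∧ 2 * f (m + l) + 1 ≤ 2 * f m + l := by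
  by_contra hcon
  push Not at hcon
  have hc : ∀ l, 1 ≤ l → l ≤ 11 → 2 * f m + l < 2 * f (m + l) + 1 := fun l a b => hcon l a b
  have u := fun i => h.up (m + i) (by omega)
  have c1 := hc 1 (by omega) (by omega)
  have u0 := h.up m hm
  have v1 : f (m + 1) = f m + 1 := by omega
  have c2 := hc 2 (by omega) (by omega)
  have u1 := u 1
  rw [show m + 1 + 1 = m + 2 by omega] at u1
  have u2 := u 2
  rw [show m + 2 + 1 = m + 3 by omega] at u2
  have u3 := u 3
  rw [show m + 3 + 1 = m + 4 by omega] at u3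
  have u4 := u 4
  rw [show m + 4 + 1 = m + 5 by omega] at u4
  have c3 := hc 3 (by omega) (by omega)
  have c4 := hc 4 (by omega) (by omega)
  have c5 := hc 5 (by omega) (by omega)
  have c7 := hc 7 (by omega) (by omega)
  have c9 := hc 9 (by omega) (by omega)
  have c10 := hc 10 (by omega) (by omega)
  have c11 := hc 11 (by omega) (by omega)
  by_cases h2 : f (m + 2) = f m + 2
  · have h3 : f (m + 3) = f m + 2 := C1 h.toSol hm v1 h2
    by_cases h4 : f (m + 4) = f m + 2
    · have := C2 h (m := m + 2) (by omega)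
        (by rw [show m + 2 + 1 = m + 3 by omega]; omega)
        (by rw [show m + 2 + 2 = m + 4 by omega]; omega)
      rw [show m + 2 + 3 = m + 5 by omega] at this
      omega
    · have h4' : f (m + 4) = f m + 3 := by omega
      by_cases h5 : f (m + 5) = f m + 3
      · have h6 := C3 h (m := m + 1) (by omega)
          (by rw [show m + 1 + 1 = m + 2 by omega]; omega)
          (by rw [show m + 1 + 2 = m + 3 by omega]; omega)
          (by rw [show m + 1 + 3 = m + 4 by omega]; omega)
          (by rw [show m + 1 + 4 = m + 5 by omega]; omega)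
        rw [show m + 1 + 5 = m + 6 by omega] at h6
        have h7 := C2 h (m := m + 4) (by omega)
          (by rw [show m + 4 + 1 = m + 5 by omega]; omega)
          (by rw [show m + 4 + 2 = m + 6 by omega]; omega)
        rw [show m + 4 + 3 = m + 7 by omega] at h7
        omega
      · have h5' : f (m + 5) = f m + 4 := by omega
        obtain ⟨h6, h7, h8, h9⟩ := C4 h (m := m + 1) (by omega)
          (by have := hl (m + 1) (by omega); omega)
          (by rw [show m + 1 + 1 = m + 2 by omega]; omega)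
          (by rw [show m + 1 + 2 = m + 3 by omega]; omega)
          (by rw [show m + 1 + 3 = m + 4 by omega]; omega)
          (by rw [show m + 1 + 4 = m + 5 by omega]; omega)
        rw [show m + 1 + 5 = m + 6 by omega] at h6
        rw [show m + 1 + 6 = m + 7 by omega] at h7
        rw [show m + 1 + 7 = m + 8 by omega] at h8
        rw [show m + 1 + 8 = m + 9 by omega] at h9
        have h10 := C2 h (m := m + 7) (by omega)
          (by rw [show m + 7 + 1 = m + 8 by omega]; omega)
          (by rw [show m + 7 + 2 = m + 9 by omega]; omega)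
        rw [show m + 7 + 3 = m + 10 by omega] at h10
        have h11 := C2 h (m := m + 8) (by omega)
          (by rw [show m + 8 + 1 = m + 9 by omega]; omega)
          (by rw [show m + 8 + 2 = m + 10 by omega]; omega)
        rw [show m + 8 + 3 = m + 11 by omega] at h11
        omega
  · have h2' : f (m + 2) = f m + 1 := by omega
    have h3' : f (m + 3) = f m + 2 := by omega
    by_cases h4 : f (m + 4) = f m + 2
    · have h5 := C3 h hm v1 h2' h3' h4
      omega
    · have h4' : f (m + 4) = f m + 3 := by omega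
      obtain ⟨h5, h6, h7, h8⟩ := C4 h hm (by have := hl m le_rfl; omega) v1 h2' h3' h4'
      have h9 := C2 h (m := m + 6) (by omega)
        (by rw [show m + 6 + 1 = m + 7 by omega]; omega)
        (by rw [show m + 6 + 2 = m + 8 by omega]; omega)
      rw [show m + 6 + 3 = m + 9 by omega] at h9
      omega

theorem bound (h : Tail f M) {N : ℕ} (hN : M ≤ N) (hl : ∀ n, N ≤ n → f n + M ≤ n) :
    ∀ n, N ≤ n → 11 * f n ≤ 5 * n + (11 * f N + 110) := by
  have key : ∀ n, N ≤ n → ∃ s, N ≤ s ∧ s ≤ n ∧ n < s + 11 ∧ 11 * f s ≤ 5 * s + 11 * f N := by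
    intro n hn
    induction n, hn using Nat.le_induction with
    | base => exact ⟨N, le_rfl, le_rfl, by omega, by omega⟩
    | succ n hn ih =>
      obtain ⟨s, hs1, hs2, hs3, hs4⟩ := ih
      by_cases hc : n + 1 < s + 11
      · exact ⟨s, hs1, by omega, hc, hs4⟩
      · obtain ⟨l, l1, l2, l3⟩ := block h (m := s) (by omega) (fun k hk => hl k (by omega))
        exact ⟨s + l, by omega, by omega, by omega, by omega⟩
  intro n hn
  obtain ⟨s, hs1, hs2, hs3, hs4⟩ := key n hn
  have hstep : ∀ i, f (s + i) ≤ f s + i := by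
    intro i
    induction i with
    | zero => simp
    | succ i ih =>
      have := h.up (s + i) (by omega)
      rw [show s + (i + 1) = s + i + 1 by omega]
      omega
  have := hstep (n - s)
  rw [show s + (n - s) = n by omega] at this
  omega

theorem growth (h : Tail f M) {N C : ℕ} (hN : M ≤ N)
    (hb : ∀ n, N ≤ n → 11 * f n ≤ 5 * n + C) :
    ∀ k n, 11 ^ k * (5 * (N + 2) + C) ≤ 6 ^ k * (5 * n + C) → 2 ^ k ≤ f n := by
  intro k
  induction k with
  | zero =>
    intro n hn
    have := h.pos n (by simp at hn; omega)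
    simpa using this
  | succ k ih =>
    intro n hn
    have hpow : (6 : ℕ) ^ (k + 1) ≤ 11 ^ (k + 1) := Nat.pow_le_pow_left (by norm_num) _
    have hE : 5 * (N + 2) + C ≤ 5 * n + C := by
      have h1 : 6 ^ (k + 1) * (5 * (N + 2) + C) ≤ 6 ^ (k + 1) * (5 * n + C) :=
        (Nat.mul_le_mul_right _ hpow).trans hn
      exact Nat.le_of_mul_le_mul_left h1 (by positivity)
    obtain ⟨m, rfl⟩ : ∃ m, n = m + 2 := ⟨n - 2, by omega⟩
    have hm : N ≤ m := by omega
    have b0 := hb m hm
    have b1 := hb (m + 1) (by omega)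
    have l0 := h.le m (by omega)
    have l1 := h.le (m + 1) (by omega)
    have step : ∀ a, 6 * (5 * (m + 2) + C) ≤ 11 * (5 * a + C) → 2 ^ k ≤ f a := by
      intro a ha
      apply ih
      have h1 : 11 * (11 ^ k * (5 * (N + 2) + C)) ≤ 11 * (6 ^ k * (5 * a + C)) := by
        calc 11 * (11 ^ k * (5 * (N + 2) + C)) = 11 ^ (k + 1) * (5 * (N + 2) + C) := by ring
          _ ≤ 6 ^ (k + 1) * (5 * (m + 2) + C) := hn
          _ = 6 ^ k * (6 * (5 * (m + 2) + C)) := by ring
          _ ≤ 6 ^ k * (11 * (5 * a + C)) := Nat.mul_le_mul_left _ ha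
          _ = 11 * (6 ^ k * (5 * a + C)) := by ring
      omega
    have s1 := step (m + 2 - f (m + 1)) (by omega)
    have s2 := step (m + 2 - f m) (by omega)
    rw [h.rec' m (by omega), pow_succ]
    omega

theorem no_tail (h : Tail f M) : False := by
  have hl := low h
  obtain ⟨N, hNdef⟩ : ∃ N, N = M + 3 * M := ⟨_, rfl⟩
  have hN : M ≤ N := by omega
  have hlow : ∀ n, N ≤ n → f n + M ≤ n := fun n hn => hl M n (by omega)
  have hb := bound h hN hlow
  obtain ⟨C, hC⟩ : ∃ C, C = 11 * f N + 110 := ⟨_, rfl⟩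
  rw [← hC] at hb
  have hg := growth h hN hb
  obtain ⟨E, hE⟩ : ∃ E, E = 5 * (N + 2) + C := ⟨_, rfl⟩
  rw [← hE] at hg
  obtain ⟨k, hk⟩ := pow_unbounded_of_one_lt ((E : ℝ) + N + 3) (show (1 : ℝ) < 12 / 11 by norm_num)
  have hk' : ((E : ℝ) + N + 3) * 11 ^ k < 12 ^ k := by
    rw [div_pow, lt_div_iff₀ (by positivity)] at hk
    exact hk
  have hk2 : (E + N + 3) * 11 ^ k < 12 ^ k := by exact_mod_cast hk'
  obtain ⟨q, hq⟩ : ∃ q, q = 11 ^ k * E / 6 ^ k := ⟨_, rfl⟩
  obtain ⟨n, hn⟩ : ∃ n, n = q + 1 + N := ⟨_, rfl⟩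
  have h6 : 0 < 6 ^ k := by positivity
  have hd : 6 ^ k * q ≤ 11 ^ k * E := hq ▸ Nat.mul_div_le _ _
  have hd2 : 11 ^ k * E < 6 ^ k * (q + 1) := hq ▸ Nat.lt_mul_div_succ _ h6
  have hQ : 11 ^ k * E ≤ 6 ^ k * (5 * n + C) := by
    refine hd2.le.trans (Nat.mul_le_mul_left _ ?_)
    omega
  have hf := hg k n hQ
  have hfn : f n ≤ n := h.le n (by omega)
  have h611 : 6 ^ k ≤ 11 ^ k := Nat.pow_le_pow_left (by norm_num) _
  have h12 : 12 ^ k = 6 ^ k * 2 ^ k := by rw [← mul_pow]; norm_num
  have : 12 ^ k ≤ (E + N + 3) * 11 ^ k := by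
    calc 12 ^ k = 6 ^ k * 2 ^ k := h12
      _ ≤ 6 ^ k * n := Nat.mul_le_mul_left _ (hf.trans hfn)
      _ = 6 ^ k * q + 6 ^ k * (1 + N) := by rw [hn]; ring
      _ ≤ 11 ^ k * E + 11 ^ k * (1 + N) := Nat.add_le_add hd (Nat.mul_le_mul_right _ h611)
      _ = (E + N + 1) * 11 ^ k := by ring
      _ ≤ (E + N + 3) * 11 ^ k := Nat.mul_le_mul_right _ (by omega)
  omega

/-! ## The general case -/

theorem step3 (h : Sol f M) {B : ℕ} (hB : ∀ m, M ≤ m → f (m + 1) ≤ f m + 1 ∨ f (m + 1) ≤ B)
    {p : ℕ} (hp : M ≤ p) : f (p + 3) ≤ f p + 2 ∨ f (p + 3) ≤ B + 2 := by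
  have u1 := hB p hp
  have u2 := hB (p + 1) (by omega)
  have u3 := hB (p + 2) (by omega)
  rw [show p + 1 + 1 = p + 2 by omega] at u2
  rw [show p + 2 + 1 = p + 3 by omega] at u3
  by_cases h1 : f (p + 1) = f p + 1
  · by_cases h2 : f (p + 2) = f p + 2
    · have := C1 h hp h1 h2
      omega
    · omega
  · omega

theorem lin (h : Sol f M) {B : ℕ} (hB : ∀ m, M ≤ m → f (m + 1) ≤ f m + 1 ∨ f (m + 1) ≤ B) :
    ∀ m, M ≤ m →
      3 * f m + 2 * M ≤ 2 * m + 3 * (f M + f (M + 1) + f (M + 2) + B + 2) := by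
  intro m
  induction m using Nat.strong_induction_on with
  | _ m ih =>
    intro hm
    by_cases h0 : m = M
    · subst h0; omega
    by_cases h1 : m = M + 1
    · subst h1; omega
    by_cases h2 : m = M + 2
    · subst h2; omega
    obtain ⟨p, rfl⟩ : ∃ p, m = p + 3 := ⟨m - 3, by omega⟩
    have hp := ih p (by omega) (by omega)
    have hs := step3 h hB (p := p) (by omega)
    omega

theorem tend (h : Sol f M) {B : ℕ} (hB : ∀ m, M ≤ m → f (m + 1) ≤ f m + 1 ∨ f (m + 1) ≤ B) :
    ∀ k, ∃ L, ∀ m, L ≤ m → 2 ^ k ≤ f m := by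
  have hlin := lin h hB
  obtain ⟨C, hC⟩ : ∃ C, C = 3 * (f M + f (M + 1) + f (M + 2) + B + 2) := ⟨_, rfl⟩
  rw [← hC] at hlin
  intro k
  induction k with
  | zero => exact ⟨1, fun m hm => by simpa using h.pos m hm⟩
  | succ k ih =>
    obtain ⟨L, hL⟩ := ih
    refine ⟨C + 3 * L + M + 2, fun n hn => ?_⟩
    obtain ⟨m, rfl⟩ : ∃ m, n = m + 2 := ⟨n - 2, by omega⟩
    have b0 := hlin m (by omega)
    have b1 := hlin (m + 1) (by omega)
    have s1 := hL (m + 2 - f (m + 1)) (by omega)
    have s2 := hL (m + 2 - f m) (by omega)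
    rw [h.rec' m (by omega), pow_succ]
    omega

theorem no_sol (h : Sol f M) {B : ℕ}
    (hB : ∀ m, M ≤ m → f (m + 1) ≤ f m + 1 ∨ f (m + 1) ≤ B) : False := by
  obtain ⟨L, hL⟩ := tend h hB B
  have hBB : B < 2 ^ B := Nat.lt_two_pow_self
  have ht : Tail f (M + L) :=
    { pos := h.pos
      le := fun m hm => h.le m (by omega)
      rec' := fun m hm => h.rec' m (by omega)
      up := fun m hm => by
        have h1 := hB m (by omega)
        have h2 := hL m (by omega)
        omega }
  exact no_tail ht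

end Pool.Agent.Helper95.HQ
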