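import Mathlib

/-!
# A solution of Hofstadter's recurrence which takes every positive integer value
-/

namespace Pool.Agent.Helper95.HQ.Onto

/-- The first 56 values. -/
def start : List ℕ := [0, 1, 112, 1, 112, 1, 2, 3, 5, 6, 9, 12, 15, 16, 28, 83, 18, 19, 20, 21, 22, 23, 24, 25, 26, 27, 31, 33, 28, 83, 34, 37, 1, 1, 1, 1, 1, 1, 1, 1, 1, 1, 1, 1, 1, 1, 1, 1, 1, 1, 1, 1, 1, 1, 1, 1]

/-- The solution. -/
def f (n : ℕ) : ℕ :=
  if n < 56 then start.getD n 1
  else if n % 28 = 17 ∨ n % 28 = 20 ∨ n % 28 = 23 ∨ n % 28 = 26 then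
    n % 28 - 1 - 4 * (n / 28 % 4) + 28 * (n / 112)
  else if n % 28 = 2 ∨ n % 28 = 6 ∨ n % 28 = 10 ∨ n % 28 = 14 then 29
  else if n % 28 = 3 ∨ n % 28 = 7 ∨ n % 28 = 11 ∨ n % 28 = 15 ∨ n % 28 = 18 ∨ n % 28 = 21 ∨
    n % 28 = 24 ∨ n % 28 = 27 then 112
  else if n % 28 = 0 then n - 1
  else if n % 28 = 4 ∨ n % 28 = 8 ∨ n % 28 = 12 then n - 3
  else if n % 28 = 5 ∨ n % 28 = 9 ∨ n % 28 = 13 ∨ n % 28 = 16 ∨ n % 28 = 19 then n - 13
  else n - 27

theorem fE {n : ℕ} (h : 56 ≤ n)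
    (h1 : n % 28 = 17 ∨ n % 28 = 20 ∨ n % 28 = 23 ∨ n % 28 = 26) :
    f n + 1 + 4 * (n / 28 % 4) = n % 28 + 28 * (n / 112) := by
  unfold f
  rw [if_neg (by omega), if_pos h1]
  omega

theorem fa {n : ℕ} (h : 56 ≤ n)
    (h1 : n % 28 = 2 ∨ n % 28 = 6 ∨ n % 28 = 10 ∨ n % 28 = 14) : f n = 29 := by
  unfold f
  rw [if_neg (by omega), if_neg (by omega), if_pos h1]

theorem fA {n : ℕ} (h : 56 ≤ n)
    (h1 : n % 28 = 3 ∨ n % 28 = 7 ∨ n % 28 = 11 ∨ n % 28 = 15 ∨ n % 28 = 18 ∨ n % 28 = 21 ∨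
      n % 28 = 24 ∨ n % 28 = 27) : f n = 112 := by
  unfold f
  rw [if_neg (by omega), if_neg (by omega), if_neg (by omega), if_pos h1]

theorem f1 {n : ℕ} (h : 56 ≤ n) (h1 : n % 28 = 0) : f n + 1 = n := by
  unfold f
  rw [if_neg (by omega), if_neg (by omega), if_neg (by omega), if_neg (by omega), if_pos h1]
  omega

theorem f3 {n : ℕ} (h : 56 ≤ n) (h1 : n % 28 = 4 ∨ n % 28 = 8 ∨ n % 28 = 12) :
    f n + 3 = n := by
  unfold f
  rw [if_neg (by omega), if_neg (by omega), if_neg (by omega), if_neg (by omega),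
    if_neg (by omega), if_pos h1]
  omega

theorem f13 {n : ℕ} (h : 56 ≤ n)
    (h1 : n % 28 = 5 ∨ n % 28 = 9 ∨ n % 28 = 13 ∨ n % 28 = 16 ∨ n % 28 = 19) :
    f n + 13 = n := by
  unfold f
  rw [if_neg (by omega), if_neg (by omega), if_neg (by omega), if_neg (by omega),
    if_neg (by omega), if_neg (by omega), if_pos h1]
  omega

theorem f27 {n : ℕ} (h : 56 ≤ n) (h1 : n % 28 = 1 ∨ n % 28 = 22 ∨ n % 28 = 25) :
    f n + 27 = n := by
  unfold f
  rw [if_neg (by omega), if_neg (by omega), if_neg (by omega), if_neg (by omega),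
    if_neg (by omega), if_neg (by omega), if_neg (by omega)]
  omega

theorem v2 : f 2 = 112 := by decide
theorem v3 : f 3 = 1 := by decide
theorem v4 : f 4 = 112 := by decide
theorem v5 : f 5 = 1 := by decide
theorem v14 : f 14 = 28 := by decide
theorem v15 : f 15 = 83 := by decide
theorem v28 : f 28 = 28 := by decide
theorem v29 : f 29 = 83 := by decide

theorem G1 {n : ℕ} (hn : 168 ≤ n)
    (hr : n % 28 = 4 ∨ n % 28 = 8 ∨ n % 28 = 12 ∨ n % 28 = 16) :
    f (n - 1) < n ∧ f (n - 2) < n ∧ f n = f (n - f (n - 1)) + f (n - f (n - 2)) := by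
  have e1 : f (n - 1) = 112 := fA (by omega) (by omega)
  have e2 : f (n - 2) = 29 := fa (by omega) (by omega)
  have e3 : f (n - 29) = 112 := fA (by omega) (by omega)
  rw [e1, e2, e3]
  refine ⟨by omega, by omega, ?_⟩
  by_cases h : n % 28 = 16
  · have a1 := f13 (n := n) (by omega) (by omega)
    have a2 := f13 (n := n - 112) (by omega) (by omega)
    omega
  · have a1 := f3 (n := n) (by omega) (by omega)
    have a2 := f3 (n := n - 112) (by omega) (by omega)
    omega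

theorem G2 {n : ℕ} (hn : 168 ≤ n)
    (hr : n % 28 = 0 ∨ n % 28 = 19 ∨ n % 28 = 22 ∨ n % 28 = 25) :
    f (n - 1) < n ∧ f (n - 2) < n ∧ f n = f (n - f (n - 1)) + f (n - f (n - 2)) := by
  have e1 : f (n - 1) = 112 := fA (by omega) (by omega)
  have e2 := fE (n := n - 2) (by omega) (by omega)
  obtain ⟨y, hy⟩ : ∃ y, y = f (n - 2) := ⟨_, rfl⟩
  rw [← hy] at e2
  have e3 : f (n - y) = 112 := fA (by omega) (by omega)
  rw [e1, ← hy, e3]
  refine ⟨by omega, by omega, ?_⟩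
  rcases hr with h | h | h | h
  · have a1 := f1 (n := n) (by omega) (by omega)
    have a2 := f1 (n := n - 112) (by omega) (by omega)
    omega
  · have a1 := f13 (n := n) (by omega) (by omega)
    have a2 := f13 (n := n - 112) (by omega) (by omega)
    omega
  · have a1 := f27 (n := n) (by omega) (by omega)
    have a2 := f27 (n := n - 112) (by omega) (by omega)
    omega
  · have a1 := f27 (n := n) (by omega) (by omega)
    have a2 := f27 (n := n - 112) (by omega) (by omega)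
    omega

theorem G3 {n : ℕ} (hn : 168 ≤ n)
    (hr : n % 28 = 1 ∨ n % 28 = 5 ∨ n % 28 = 9 ∨ n % 28 = 13) :
    f (n - 1) < n ∧ f (n - 2) < n ∧ f n = f (n - f (n - 1)) + f (n - f (n - 2)) := by
  have e2 : f (n - 2) = 112 := fA (by omega) (by omega)
  by_cases h : n % 28 = 1
  · have e1 := f1 (n := n - 1) (by omega) (by omega)
    rw [show n - f (n - 1) = 2 by omega, v2, e2]
    have a1 := f27 (n := n) (by omega) (by omega)
    have a2 := f27 (n := n - 112) (by omega) (by omega)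
    omega
  · have e1 := f3 (n := n - 1) (by omega) (by omega)
    rw [show n - f (n - 1) = 4 by omega, v4, e2]
    have a1 := f13 (n := n) (by omega) (by omega)
    have a2 := f13 (n := n - 112) (by omega) (by omega)
    omega

theorem G4 {n : ℕ} (hn : 168 ≤ n)
    (hr : n % 28 = 2 ∨ n % 28 = 6 ∨ n % 28 = 10 ∨ n % 28 = 14) :
    f (n - 1) < n ∧ f (n - 2) < n ∧ f n = f (n - f (n - 1)) + f (n - f (n - 2)) := by
  have e0 : f n = 29 := fa (by omega) hr
  by_cases h : n % 28 = 2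
  · have e1 := f27 (n := n - 1) (by omega) (by omega)
    have e2 := f1 (n := n - 2) (by omega) (by omega)
    rw [show n - f (n - 1) = 28 by omega, show n - f (n - 2) = 3 by omega, v28, v3, e0]
    omega
  · have e1 := f13 (n := n - 1) (by omega) (by omega)
    have e2 := f3 (n := n - 2) (by omega) (by omega)
    rw [show n - f (n - 1) = 14 by omega, show n - f (n - 2) = 5 by omega, v14, v5, e0]
    omega

theorem G5 {n : ℕ} (hn : 168 ≤ n)
    (hr : n % 28 = 3 ∨ n % 28 = 7 ∨ n % 28 = 11 ∨ n % 28 = 15) :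
    f (n - 1) < n ∧ f (n - 2) < n ∧ f n = f (n - f (n - 1)) + f (n - f (n - 2)) := by
  have e0 : f n = 112 := fA (by omega) (by omega)
  have e1 : f (n - 1) = 29 := fa (by omega) (by omega)
  have e3 : f (n - 29) = 29 := fa (by omega) (by omega)
  rw [e1, e3, e0]
  by_cases h : n % 28 = 3
  · have e2 := f27 (n := n - 2) (by omega) (by omega)
    rw [show n - f (n - 2) = 29 by omega, v29]
    omega
  · have e2 := f13 (n := n - 2) (by omega) (by omega)
    rw [show n - f (n - 2) = 15 by omega, v15]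
    omega

theorem G6 {n : ℕ} (hn : 168 ≤ n)
    (hr : n % 28 = 17 ∨ n % 28 = 20 ∨ n % 28 = 23 ∨ n % 28 = 26) :
    f (n - 1) < n ∧ f (n - 2) < n ∧ f n = f (n - f (n - 1)) + f (n - f (n - 2)) := by
  have e2 : f (n - 2) = 112 := fA (by omega) (by omega)
  have a1 := fE (n := n) (by omega) (by omega)
  have a2 := fE (n := n - 112) (by omega) (by omega)
  have hstep : f n = 28 + f (n - 112) := by omega
  rw [e2, hstep]
  by_cases h : n % 28 = 17 ∨ n % 28 = 20
  · have e1 := f13 (n := n - 1) (by omega) (by omega)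
    rw [show n - f (n - 1) = 14 by omega, v14]
    omega
  · have e1 := f27 (n := n - 1) (by omega) (by omega)
    rw [show n - f (n - 1) = 28 by omega, v28]
    omega

theorem G7 {n : ℕ} (hn : 168 ≤ n)
    (hr : n % 28 = 18 ∨ n % 28 = 21 ∨ n % 28 = 24 ∨ n % 28 = 27) :
    f (n - 1) < n ∧ f (n - 2) < n ∧ f n = f (n - f (n - 1)) + f (n - f (n - 2)) := by
  have e0 : f n = 112 := fA (by omega) (by omega)
  have e1 := fE (n := n - 1) (by omega) (by omega)
  obtain ⟨y, hy⟩ : ∃ y, y = f (n - 1) := ⟨_, rfl⟩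
  rw [← hy] at e1
  have hj : (n - 1) / 28 % 4 < 4 := Nat.mod_lt _ (by norm_num)
  have ht : 112 * ((n - 1) / 112) ≤ n - 1 := Nat.mul_div_le _ _
  have hmod : (n - 1) % 28 = n % 28 - 1 := by omega
  have hyn : 56 ≤ n - y := by omega
  have e3 : f (n - y) = 29 := by
    apply fa hyn
    rw [hmod] at e1
    generalize (n - 1) / 28 % 4 = j at hj e1
    generalize (n - 1) / 112 = t at ht e1
    interval_cases j <;> omega
  rw [← hy, e3, e0]
  by_cases h : n % 28 = 18 ∨ n % 28 = 21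
  · have e2 := f13 (n := n - 2) (by omega) (by omega)
    rw [show n - f (n - 2) = 15 by omega, v15]
    omega
  · have e2 := f27 (n := n - 2) (by omega) (by omega)
    rw [show n - f (n - 2) = 29 by omega, v29]
    omega

theorem recur {n : ℕ} (hn : 168 ≤ n) :
    f (n - 1) < n ∧ f (n - 2) < n ∧ f n = f (n - f (n - 1)) + f (n - f (n - 2)) := by
  have h : n % 28 < 28 := Nat.mod_lt _ (by norm_num)
  by_cases h1 : n % 28 = 4 ∨ n % 28 = 8 ∨ n % 28 = 12 ∨ n % 28 = 16
  · exact G1 hn h1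
  by_cases h2 : n % 28 = 0 ∨ n % 28 = 19 ∨ n % 28 = 22 ∨ n % 28 = 25
  · exact G2 hn h2
  by_cases h3 : n % 28 = 1 ∨ n % 28 = 5 ∨ n % 28 = 9 ∨ n % 28 = 13
  · exact G3 hn h3
  by_cases h4 : n % 28 = 2 ∨ n % 28 = 6 ∨ n % 28 = 10 ∨ n % 28 = 14
  · exact G4 hn h4
  by_cases h5 : n % 28 = 3 ∨ n % 28 = 7 ∨ n % 28 = 11 ∨ n % 28 = 15
  · exact G5 hn h5
  by_cases h6 : n % 28 = 17 ∨ n % 28 = 20 ∨ n % 28 = 23 ∨ n % 28 = 26
  · exact G6 hn h6
  · exact G7 hn (by omega)

theorem small_pos : ∀ n < 56, 1 ≤ n → 1 ≤ f n := by decide +kernel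

theorem pos {n : ℕ} (hn : 1 ≤ n) : 1 ≤ f n := by
  by_cases h : n < 56
  · exact small_pos n h hn
  · unfold f
    rw [if_neg h]
    split_ifs <;> omega

theorem small_onto : ∀ m < 56, 1 ≤ m → ∃ n < 300, 1 ≤ n ∧ f n = m := by decide +kernel

theorem onto {m : ℕ} (hm : 1 ≤ m) : ∃ n, 1 ≤ n ∧ f n = m := by
  by_cases h : m < 56
  · obtain ⟨n, -, h1, h2⟩ := small_onto m h hm
    exact ⟨n, h1, h2⟩
  have hr : m % 28 < 28 := Nat.mod_lt _ (by norm_num)
  -- the classes reached by the linear parts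
  by_cases c1 : m % 28 = 27
  · have := f1 (n := m + 1) (by omega) (by omega)
    exact ⟨m + 1, by omega, by omega⟩
  by_cases c2 : m % 28 = 1 ∨ m % 28 = 5 ∨ m % 28 = 9
  · have := f3 (n := m + 3) (by omega) (by omega)
    exact ⟨m + 3, by omega, by omega⟩
  by_cases c3 : m % 28 = 20 ∨ m % 28 = 24 ∨ m % 28 = 0 ∨ m % 28 = 3 ∨ m % 28 = 6
  · have := f13 (n := m + 13) (by omega) (by omega)
    exact ⟨m + 13, by omega, by omega⟩
  by_cases c4 : m % 28 = 2 ∨ m % 28 = 23 ∨ m % 28 = 26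
  · have := f27 (n := m + 27) (by omega) (by omega)
    exact ⟨m + 27, by omega, by omega⟩
  -- the other classes: m = 28 i + (r - 1 - 4 j)
  have key : ∀ i j r : ℕ, j < 4 → (r = 17 ∨ r = 20 ∨ r = 23 ∨ r = 26) → 1 ≤ i →
      m + 1 + 4 * j = 28 * i + r → ∃ n, 1 ≤ n ∧ f n = m := by
    intro i j r hj hr hi he
    have := fE (n := 112 * i + 28 * j + r) (by omega) (by omega)
    exact ⟨112 * i + 28 * j + r, by omega, by omega⟩
  by_cases d1 : m % 28 = 16 ∨ m % 28 = 12 ∨ m % 28 = 8 ∨ m % 28 = 4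
  · exact key (m / 28) ((16 - m % 28) / 4) 17 (by omega) (by omega) (by omega) (by omega)
  by_cases d2 : m % 28 = 19 ∨ m % 28 = 15 ∨ m % 28 = 11 ∨ m % 28 = 7
  · exact key (m / 28) ((19 - m % 28) / 4) 20 (by omega) (by omega) (by omega) (by omega)
  by_cases d3 : m % 28 = 22 ∨ m % 28 = 18 ∨ m % 28 = 14 ∨ m % 28 = 10
  · exact key (m / 28) ((22 - m % 28) / 4) 23 (by omega) (by omega) (by omega) (by omega)
  · exact key (m / 28) ((25 - m % 28) / 4) 26 (by omega) (by omega) (by omega) (by omega)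

end Pool.Agent.Helper95.HQ.Onto
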